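import Pool.Agent.Solovay.Main
import Pool.Agent.Solovay.FiniteCase

/-!
# Under `V = L` complete recursively axiomatized second-order theories are categorical

The definitions used in the statement are in `Pool/Agent/Solovay/Defs.lean`; the proof is in the
other files of `Pool/Agent/Solovay/`.

Idea of the proof.  All models of the theory `T` (axiomatized by the recursive set `R`) have the
same infinite cardinality `k`: a bigger model would see a small model of `R`, and this is expressed
by a second-order sentence.  The second-order theory of a structure `B` of cardinality `k` is the
first-order type, in `X = H(k^+) = L_{k^+}`, of a code of `B`.  Codes are definable in `X` from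
finite sets of levels of the constructible hierarchy, which are well-ordered colexicographically.
Let `a0` be the least finite set defining a code of a model of `T`, let `B1` be a model of `T` which
is not isomorphic to the structure coded by `a0`, and let `a1` be the corresponding least finite set
for `B1`.  Then `a0` and `a1` have the same type.  Let `z` be the biggest element of `a1` not in
`a0`, and let `p` be the part of `a1` above `z`.  Condensing the definable hull of `a1`, and then
the hull of `z` and `p` in the collapse, one finds a set `Y` (a level) and a finite set `r` in the
hull of `a1` such that for every finite `b` below `z` the pairs `(X, p ∪ b)` and `(Y, r ∪ b)` satisfy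
the same formulas; here the minimality of `a1` is used.  So `a1` satisfies a single second-order
statement saying that for some `b` the pair `(Y, r ∪ b)` codes a structure which `Y` believes to
satisfy all sentences in `R` (`b` is the part of `a0` below `z`).  Then `a0` satisfies the same
statement, and this gives a code of a model of `T` smaller than `a0`.
-/

namespace Pool.Agent.Results.MP_cba9f6_lc.RecAxCategorical

open Pool.Agent.Solovay

/-- Assume `V = L`.  Then every complete, recursively axiomatized second-order theory (in a finite
vocabulary) is categorical. -/
theorem result (hVL : VEqualsL) (τ : Vocab) (T : Set (SOF τ)) (hT : ∀ φ ∈ T, φ.IsSentence)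
    (hc : Complete T) (hr : RecursivelyAxiomatized T) : Categorical T := by
  obtain ⟨R, hRs, hR, hTR⟩ := hr
  by_cases h : ∃ A : Str τ, A.Models T ∧ Finite A.M
  · obtain ⟨A, hA, hfin⟩ := h
    exact categorical_of_finite hc hA hfin
  · exact main_inf hVL hc hRs hR hTR fun B hB => not_finite_iff_infinite.1 fun hf => h ⟨B, hB, hf⟩

end Pool.Agent.Results.MP_cba9f6_lc.RecAxCategorical
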